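import Mathlib

set_option autoImplicit false

namespace Pool.Agent.H.MP_2a9801_co

def ea (i : Fin 16) : Fin 10 := ⟨[0, 0, 0, 1, 1, 2, 2, 3, 3, 4, 4, 5, 5, 6, 6, 7].getD i 0 % 10, Nat.mod_lt _ (by norm_num)⟩
def eb (i : Fin 16) : Fin 10 := ⟨[1, 2, 7, 4, 6, 3, 8, 4, 9, 5, 6, 7, 8, 8, 9, 9].getD i 0 % 10, Nat.mod_lt _ (by norm_num)⟩
def am (i : Fin 16) : ℕ := [3, 1, 1, 1, 1, 2, 2, 1, 2, 1, 2, 2, 2, 1, 1, 2].getD i 0
def pat (k : Fin 8) (i : Fin 16) : Bool := ([41505, 37921, 18625, 3393, 10506, 37010, 20524, 852].getD k 0).testBit i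
def cu (k : Fin 8) : ℕ := [1, 0, 0, 2, 0, 1, 1, 0].getD k 0
def cv (k : Fin 8) : ℕ := [0, 2, 1, 0, 1, 0, 0, 1].getD k 0
def touch (i j : Fin 16) : Prop := ea i = ea j ∨ ea i = eb j ∨ eb i = ea j ∨ eb i = eb j

instance (i j : Fin 16) : Decidable (touch i j) := by unfold touch; infer_instance

set_option synthInstance.maxSize 8000 in
theorem cls0 : ∀ b0 : Bool, 
    ∀ b1 : Bool, (b1 && (b0)) = false → 
    ∀ b2 : Bool, (b2 && (b0 || b1)) = false → 
    ∀ b3 : Bool, (b3 && (b0)) = false → 
    ∀ b4 : Bool, (b4 && (b0 || b3)) = false → 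
    ∀ b5 : Bool, (b5 && (b1)) = false → 
    ∀ b6 : Bool, (b6 && (b1 || b5)) = false → 
    ∀ b7 : Bool, (b7 && (b3 || b5)) = false → 
    ∀ b8 : Bool, (b8 && (b5 || b7)) = false → 
    ∀ b9 : Bool, (b9 && (b3 || b7)) = false → 
    ∀ b10 : Bool, (b10 && (b3 || b4 || b7 || b9)) = false → 
    ∀ b11 : Bool, (b11 && (b2 || b9)) = false → 
    ∀ b12 : Bool, (b12 && (b6 || b9 || b11)) = false → 
    ∀ b13 : Bool, (b13 && (b4 || b6 || b10 || b12)) = false → 
    ∀ b14 : Bool, (b14 && (b4 || b8 || b10 || b13)) = false → 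
    ∀ b15 : Bool, (b15 && (b2 || b8 || b11 || b14)) = false → 
    (b0.toNat + b1.toNat + b2.toNat + b3.toNat + b4.toNat + b5.toNat + b6.toNat + b7.toNat + b8.toNat + b9.toNat + b10.toNat + b11.toNat + b12.toNat + b13.toNat + b14.toNat + b15.toNat ≤ 4 ∨
    ∃ k : Fin 8, [b0, b1, b2, b3, b4, b5, b6, b7, b8, b9, b10, b11, b12, b13, b14, b15] = List.ofFn (pat k)) := by
  decide +kernel

set_option linter.unusedSimpArgs false in
theorem cls (b : Fin 16 → Bool) (h : ∀ i j, i ≠ j → touch i j → (b i && b j) = false) :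
    ∑ i, (b i).toNat ≤ 4 ∨ ∃ k, b = pat k := by
  have := cls0 (b 0) 
    (b 1) (by simp only [Bool.and_or_distrib_left, h 1 0 (by decide +kernel) (by decide +kernel), Bool.or_self]) 
    (b 2) (by simp only [Bool.and_or_distrib_left, h 2 0 (by decide +kernel) (by decide +kernel), h 2 1 (by decide +kernel) (by decide +kernel), Bool.or_self]) 
    (b 3) (by simp only [Bool.and_or_distrib_left, h 3 0 (by decide +kernel) (by decide +kernel), Bool.or_self]) 
    (b 4) (by simp only [Bool.and_or_distrib_left, h 4 0 (by decide +kernel) (by decide +kernel), h 4 3 (by decide +kernel) (by decide +kernel), Bool.or_self]) 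
    (b 5) (by simp only [Bool.and_or_distrib_left, h 5 1 (by decide +kernel) (by decide +kernel), Bool.or_self]) 
    (b 6) (by simp only [Bool.and_or_distrib_left, h 6 1 (by decide +kernel) (by decide +kernel), h 6 5 (by decide +kernel) (by decide +kernel), Bool.or_self]) 
    (b 7) (by simp only [Bool.and_or_distrib_left, h 7 3 (by decide +kernel) (by decide +kernel), h 7 5 (by decide +kernel) (by decide +kernel), Bool.or_self]) 
    (b 8) (by simp only [Bool.and_or_distrib_left, h 8 5 (by decide +kernel) (by decide +kernel), h 8 7 (by decide +kernel) (by decide +kernel), Bool.or_self]) 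
    (b 9) (by simp only [Bool.and_or_distrib_left, h 9 3 (by decide +kernel) (by decide +kernel), h 9 7 (by decide +kernel) (by decide +kernel), Bool.or_self]) 
    (b 10) (by simp only [Bool.and_or_distrib_left, h 10 3 (by decide +kernel) (by decide +kernel), h 10 4 (by decide +kernel) (by decide +kernel), h 10 7 (by decide +kernel) (by decide +kernel), h 10 9 (by decide +kernel) (by decide +kernel), Bool.or_self]) 
    (b 11) (by simp only [Bool.and_or_distrib_left, h 11 2 (by decide +kernel) (by decide +kernel), h 11 9 (by decide +kernel) (by decide +kernel), Bool.or_self]) 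
    (b 12) (by simp only [Bool.and_or_distrib_left, h 12 6 (by decide +kernel) (by decide +kernel), h 12 9 (by decide +kernel) (by decide +kernel), h 12 11 (by decide +kernel) (by decide +kernel), Bool.or_self]) 
    (b 13) (by simp only [Bool.and_or_distrib_left, h 13 4 (by decide +kernel) (by decide +kernel), h 13 6 (by decide +kernel) (by decide +kernel), h 13 10 (by decide +kernel) (by decide +kernel), h 13 12 (by decide +kernel) (by decide +kernel), Bool.or_self]) 
    (b 14) (by simp only [Bool.and_or_distrib_left, h 14 4 (by decide +kernel) (by decide +kernel), h 14 8 (by decide +kernel) (by decide +kernel), h 14 10 (by decide +kernel) (by decide +kernel), h 14 13 (by decide +kernel) (by decide +kernel), Bool.or_self]) 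
    (b 15) (by simp only [Bool.and_or_distrib_left, h 15 2 (by decide +kernel) (by decide +kernel), h 15 8 (by decide +kernel) (by decide +kernel), h 15 11 (by decide +kernel) (by decide +kernel), h 15 14 (by decide +kernel) (by decide +kernel), Bool.or_self]) 
    
  rcases this with h1 | ⟨k, h1⟩
  · left
    simp only [Fin.sum_univ_succ, Fin.sum_univ_zero]
    simp only [add_assoc] at h1
    exact h1
  · right
    exact ⟨k, List.ofFn_injective (Eq.trans rfl h1)⟩

theorem pat_sum : ∀ k, ∑ i, (pat k i).toNat = 5 := by decide +kernel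
theorem am_sum : ∑ i, am i = 25 := by decide +kernel
theorem pat_inj : ∀ k k', (∀ i, pat k i = pat k' i) → k = k' := by decide +kernel
theorem pat_m : ∀ k i j, pat k i = true → pat k j = true → touch i j → i = j := by decide +kernel
theorem e_inj : ∀ i j, (ea i = ea j ∧ eb i = eb j ∨ ea i = eb j ∧ eb i = ea j) → i = j := by
  decide +kernel
theorem e_ne : ∀ i, ea i ≠ eb i := by decide +kernel
theorem cu_am : ∀ i, ∑ k, cu k * (pat k i).toNat = am i := by decide +kernel
theorem cv_am : ∀ i, ∑ k, cv k * (pat k i).toNat = am i := by decide +kernel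
theorem cu_sum : ∑ k, cu k = 5 := by decide +kernel
theorem cv_sum : ∑ k, cv k = 5 := by decide +kernel
theorem cu_cv : ∀ k, cu k = 0 ∨ cv k = 0 := by decide +kernel

def ind (k t : Fin 8) : ℕ := if k = t then 1 else 0

theorem fin0 : ∀ k0 k1 : Fin 8, (∀ i, (pat k0 i).toNat + (pat k1 i).toNat ≤ am i) →
    ∀ k2 : Fin 8, (∀ i, (pat k0 i).toNat + ((pat k1 i).toNat + (pat k2 i).toNat) ≤ am i) →
    ∀ k3 k4 : Fin 8, (∀ i, (pat k0 i).toNat + ((pat k1 i).toNat + ((pat k2 i).toNat +
      ((pat k3 i).toNat + (pat k4 i).toNat))) = am i) →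
    (∀ t, ind k0 t + (ind k1 t + (ind k2 t + (ind k3 t + ind k4 t))) = cu t) ∨
    (∀ t, ind k0 t + (ind k1 t + (ind k2 t + (ind k3 t + ind k4 t))) = cv t) := by
  decide +kernel

theorem fin (b : Fin 5 → Fin 16 → Bool)
    (h : ∀ r i j, i ≠ j → touch i j → (b r i && b r j) = false)
    (hs : ∀ i, ∑ r, (b r i).toNat = am i) :
    ∃ k : Fin 5 → Fin 8, (∀ r, b r = pat (k r)) ∧
      ((∀ t, ∑ r, ind (k r) t = cu t) ∨ (∀ t, ∑ r, ind (k r) t = cv t)) := by
  have h1 : ∀ r, ∑ i, (b r i).toNat ≤ 5 := fun r => by
    rcases cls (b r) (h r) with h1 | ⟨k, h1⟩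
    · omega
    · rw [h1, pat_sum]
  have h2 : ∑ r, ∑ i, (b r i).toNat = 25 := by
    rw [Finset.sum_comm, ← am_sum]
    exact Finset.sum_congr rfl fun i _ => hs i
  have h3 : ∀ r, ∃ k, b r = pat k := fun r => by
    rcases cls (b r) (h r) with h3 | h3
    · exfalso
      have : ∑ r, ∑ i, (b r i).toNat < ∑ _r : Fin 5, 5 :=
        Finset.sum_lt_sum (fun r _ => h1 r) ⟨r, Finset.mem_univ _, by omega⟩
      rw [h2] at this
      simp at this
    · exact h3
  choose k hk using h3
  refine ⟨k, hk, ?_⟩
  simp only [hk, Fin.sum_univ_five, add_assoc] at hs ⊢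
  exact fin0 (k 0) (k 1) (fun i => by have := hs i; omega) (k 2)
    (fun i => by have := hs i; omega) (k 3) (k 4) hs

theorem exists_fun {M : Type} (n : ℕ) : ∀ w : M →₀ ℕ, w.degree = n →
    ∃ f : Fin n → M, w = ∑ r, Finsupp.single (f r) 1 := by
  induction n with
  | zero =>
    intro w hw
    exact ⟨Fin.elim0, by simpa using (Finsupp.degree_eq_zero_iff w).1 hw⟩
  | succ n ih =>
    intro w hw
    have hw0 : w ≠ 0 := by rintro rfl; simp at hw
    obtain ⟨m, hm⟩ := Finsupp.ne_iff.1 hw0
    have hle : Finsupp.single m 1 ≤ w := by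
      rw [Finsupp.single_le_iff]; exact Nat.pos_of_ne_zero hm
    obtain ⟨w', rfl⟩ := exists_add_of_le hle
    obtain ⟨f, hf⟩ := ih w' (by
      rw [map_add, Finsupp.degree_single] at hw; omega)
    exact ⟨Fin.cons m f, by rw [Fin.sum_univ_succ, hf]; simp⟩

open MvPolynomial in
theorem abstract {M N K : Type} [Field K] (ρ : M → N →₀ ℕ) (u v : M →₀ ℕ) (n : ℕ)
    (hu : u.degree = n + 1)
    (huv : Finsupp.linearCombination ℕ ρ u = Finsupp.linearCombination ℕ ρ v)
    (hfib : ∀ w, Finsupp.linearCombination ℕ ρ w = Finsupp.linearCombination ℕ ρ u →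
      w = u ∨ w = v)
    (hdis : ∀ m, u m = 0 ∨ v m = 0) (S : Set (MvPolynomial M K))
    (hS : Ideal.span S = RingHom.ker
      (aeval (fun m => monomial (ρ m) (1 : K)) : MvPolynomial M K →ₐ[K] MvPolynomial N K)) :
    ∃ f ∈ S, n + 1 ≤ f.totalDegree := by
  classical
  set π : MvPolynomial M K →ₐ[K] MvPolynomial N K := aeval (fun m => monomial (ρ m) (1 : K))
    with hπ
  set A := Finsupp.linearCombination ℕ ρ with hA
  have hmon : ∀ w c, π (monomial w c) = monomial (A w) c := by
    intro w c
    rw [hπ, aeval_monomial, hA, Finsupp.linearCombination_apply, Finsupp.sum, Finsupp.prod,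
      monomial_sum_index]
    simp only [monomial_pow, one_pow]
    rfl
  by_contra hne
  push Not at hne
  have key : ∀ f ∈ Ideal.span S, ∀ h, coeff u (h * f) = 0 := by
    intro f hf
    induction hf using Submodule.span_induction with
    | mem g hg =>
      intro h
      have hg0 : π g = 0 := by
        have : g ∈ Ideal.span S := Ideal.subset_span hg
        rwa [hS] at this
      rw [coeff_mul]
      refine Finset.sum_eq_zero fun x hx => ?_
      have hx' : x.1 + x.2 = u := Finset.HasAntidiagonal.mem_antidiagonal.1 hx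
      by_cases hb : coeff x.2 g = 0
      · rw [hb, mul_zero]
      exfalso
      have hd : x.2.degree ≤ n := by
        have h1 := le_totalDegree (mem_support_iff.2 hb)
        have h2 := hne g hg
        have h3 : x.2.degree = x.2.sum fun _ e => e := rfl
        omega
      have ha : x.1 ≠ 0 := by
        intro h0
        rw [h0, zero_add] at hx'
        rw [hx'] at hd; omega
      obtain ⟨m, hm⟩ := Finsupp.ne_iff.1 ha
      have huniq : ∀ w, A w = A x.2 → w = x.2 := by
        intro w hw
        rcases hfib (x.1 + w) (by rw [map_add, hw, ← map_add, hx']) with h1 | h1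
        · rw [← hx'] at h1; exact add_left_cancel h1
        · exfalso
          have e1 := DFunLike.congr_fun hx' m
          have e2 := DFunLike.congr_fun h1 m
          simp only [Finsupp.add_apply, Finsupp.zero_apply] at e1 e2 hm
          rcases hdis m with h2 | h2 <;> omega
      apply hb
      have e := congrArg (coeff (A x.2)) hg0
      conv_lhs at e => rw [g.as_sum, map_sum]
      simp only [hmon, coeff_sum, coeff_monomial, coeff_zero] at e
      rw [Finset.sum_eq_single x.2 (fun w _ hw => if_neg fun h => hw (huniq w h))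
        (fun h => absurd (mem_support_iff.2 hb) h)] at e
      simpa using e
    | zero => intro h; simp
    | add f g _ _ h1 h2 => intro h; rw [mul_add, coeff_add, h1, h2, add_zero]
    | smul a f _ h1 => intro h; rw [smul_eq_mul, ← mul_assoc]; exact h1 _
  have hne' : v ≠ u := by
    rintro rfl
    have : v = 0 := by ext m; rcases hdis m with h | h <;> exact h
    rw [this] at hu; simp at hu
  have := key (monomial u 1 - monomial v 1) (by
    rw [hS, RingHom.mem_ker, map_sub, hmon, hmon, huv, sub_self]) 1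
  simp [hne'] at this

end Pool.Agent.H.MP_2a9801_co
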